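import Pool.Agent.Helper2.EC_C.Goals
import Pool.Agent.Helper2.EC_C.Basic

set_option autoImplicit false

open MeasureTheory Filter Topology Set

namespace ECC.PkE4

open EC237

theorem alg (a b G G3 H H3 T T3 t : ℝ) (h1 : a ^ 2 = 1 + 12 * G - 36 * G3)
    (h3 : t = a * (G - 9 * G3) + (a - b) / 3) (h5 : T = 5 / 6 * H + 1 / 6 * G - 2 * G ^ 2)
    (h53 : T3 = 5 / 6 * H3 + 1 / 6 * G3 - 2 * G3 ^ 2) (hi : 12 * T - 108 * T3 = 2 * a * t)
    (h6 : (1 - b) * (a - 1) / 18 - 4 * (-1 / 2 * G + 9 / 2 * G3) ^ 2 =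
      -T + 27 * T3 + 1 / 2 * H - 81 / 2 * H3 + (a - 1) / 18
        - 4 / 3 * (-1 / 2 * G + 9 / 2 * G3) - (1 - b) / 18) :
    1 + 240 * H = 9 * a ^ 4 - 8 * a * b ∧ 1 + 240 * H3 = (a ^ 4 + 8 * a * b) / 9 := by
  have hG : G = (a ^ 2 - 1) / 12 + 3 * G3 := by linarith
  subst h3 h5 h53 hG
  constructor
  · linear_combination (144 / 7) * hi + (720 / 7) * h6
  · linear_combination (-8 / 21) * hi + (80 / 7) * h6

theorem diff_k1 (k1 : G_K1) {q : ℝ} (hq : |q| < 1) :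
    12 * GT q - 108 * GT (q ^ 3) = 2 * aS q * aT q := by
  obtain ⟨da, hda, ea⟩ := LS_deriv PG.chi hq
  obtain ⟨dg, hdg, eg⟩ := LS_deriv PG.N hq
  obtain ⟨d3, hd3, e3⟩ := LS_deriv PG.N (abs_pow_lt_one' hq (n := 3) (by norm_num))
  have hL : HasDerivAt (fun x => aS x ^ 2) (2 * aS q * (6 * da)) q := by
    have h1 : HasDerivAt aS (6 * da) q := (hda.const_mul 6).const_add 1
    refine (h1.pow 2).congr_deriv ?_
    norm_num
  have hR : HasDerivAt (fun x => 1 + 12 * GS x - 36 * GS (x ^ 3))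
      (12 * dg - 36 * (d3 * (3 * q ^ 2))) q := by
    have h1 : HasDerivAt (fun x => 1 + 12 * GS x) (12 * dg) q := (hdg.const_mul 12).const_add 1
    have h2 : HasDerivAt (fun x => GS (x ^ 3)) (d3 * (3 * q ^ 2)) q := by
      have h3 : HasDerivAt (fun x : ℝ => x ^ 3) (3 * q ^ 2) q := by
        simpa using hasDerivAt_pow 3 q
      exact HasDerivAt.comp (h₂ := GS) (h := fun x : ℝ => x ^ 3) q hd3 h3
    exact h1.sub (h2.const_mul 36)
  have heq : (fun x => aS x ^ 2) =ᶠ[𝓝 q] fun x => 1 + 12 * GS x - 36 * GS (x ^ 3) := by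
    have : {x : ℝ | |x| < 1} ∈ 𝓝 q := (isOpen_lt continuous_abs continuous_const).mem_nhds hq
    filter_upwards [this] with x hx
    exact k1 x hx
  have hd := (hL.congr_of_eventuallyEq heq.symm).unique hR
  have e1 : GT q = q * dg := by
    rw [eg, GT]
    exact LS_congr (fun M ν _ _ => by ring) q
  have e2 : GT (q ^ 3) = q ^ 3 * d3 := by
    rw [e3, GT]
    exact LS_congr (fun M ν _ _ => by ring) _
  have e4 : aT q = 6 * (q * da) := by
    rw [ea, aT]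
  rw [e1, e2, e4]
  linear_combination (-q) * hd

theorem e4_ (k1 : G_K1) (k3 : G_K3) (k5 : G_K5) (k6 : G_K6) : G_E4 := by
  intro q hq
  have hq3 : |q ^ 3| < 1 := abs_pow_lt_one' hq (by norm_num)
  have h := alg (aS q) (bS q) (GS q) (GS (q ^ 3)) (HS q) (HS (q ^ 3)) (GT q) (GT (q ^ 3)) (aT q)
    (k1 q hq) (k3 q hq) (k5 q hq) (k5 _ hq3) (diff_k1 k1 hq) (k6 q hq)
  exact h

end ECC.PkE4
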