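import Pool.Agent.Helper2.EC_C.Goals
import Pool.Agent.Helper2.EC_C.Basic

set_option autoImplicit false

open MeasureTheory Filter Topology Set

namespace ECC.PkW

open EC237

theorem alg (a b P t1 t2 : ℝ)
    (h1 : 12 * t1 = a * P + 3 * a ^ 3 - 4 * ((2 * b - a) ^ 2 * ((a + b) / 2)))
    (h2 : 24 * t2 = b * (P + a ^ 2 + 2 * a * b - 2 * b ^ 2)
      + 6 * b ^ 3 - 8 * ((2 * b - a) * ((a + b) / 2) ^ 2)) :
    (a + b) / 2 * ((t1 - 2 * t2) / 6) - (a - b) / 6 * ((t1 + 2 * t2) / 2) =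
      (2 * b - a) * ((a + b) / 2) * ((a + 2 * b) / 3) * ((a - b) / 6) := by
  linear_combination (b / 72) * h1 - (a / 72) * h2

theorem part1 (th : G_TH) (pos : G_POS) (y : ℝ) (hy : 0 < y) : 0 < ww y ∧
    HasDerivAt ww (-Real.pi * (AA (Qn y) * CC (Qn y)) * ww y) y := by
  obtain ⟨hA, hB, hC, hD⟩ := pos y hy
  refine ⟨?_, ?_⟩
  · unfold ww
    exact div_pos (by linarith) hB
  · have h1 := aS_Qn_deriv hy
    have h2 := aS_Qn2_deriv hy
    have hBd : HasDerivAt (fun y => BB (Qn y))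
        (-Real.pi * ((aT (Qn y) + 2 * aT (Qn y ^ 2)) / 2)) y := by
      refine ((h1.add h2).div_const 2).congr_deriv ?_
      ring
    have hDd : HasDerivAt (fun y => DD (Qn y))
        (-Real.pi * ((aT (Qn y) - 2 * aT (Qn y ^ 2)) / 6)) y := by
      refine ((h1.sub h2).div_const 6).congr_deriv ?_
      ring
    have hw := (hDd.const_mul (-9)).div hBd hB.ne'
    refine hw.congr_deriv ?_
    obtain ⟨t1, t2, -⟩ := th (Qn y) (abs_Qn_lt hy)
    have key := alg (aS (Qn y)) (aS (Qn y ^ 2)) (PS (Qn y)) (aT (Qn y)) (aT (Qn y ^ 2)) t1 t2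
    have key2 : BB (Qn y) * ((aT (Qn y) - 2 * aT (Qn y ^ 2)) / 6) -
        DD (Qn y) * ((aT (Qn y) + 2 * aT (Qn y ^ 2)) / 2) =
        AA (Qn y) * BB (Qn y) * CC (Qn y) * DD (Qn y) := key
    unfold ww
    field_simp
    linear_combination (12 : ℝ) * key2

theorem abs_log_le {d : ℝ} (hd : |d| ≤ 1 / 2) : |Real.log (1 + d)| ≤ 2 * |d| := by
  have h1 := abs_le.mp hd
  have h2 : 0 < 1 + d := by linarith
  rw [abs_le]
  constructor
  · have h3 := Real.one_sub_inv_le_log_of_pos h2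
    have h4 : 1 - (1 + d)⁻¹ = d / (1 + d) := by field_simp; ring
    rw [h4] at h3
    refine le_trans ?_ h3
    rw [le_div_iff₀ h2]
    rcases abs_cases d with ⟨h5, h6⟩ | ⟨h5, h6⟩
    · rw [h5]; nlinarith
    · rw [h5]; nlinarith
  · have h3 := Real.log_le_sub_one_of_pos h2
    have h4 := le_abs_self d
    have h5 := abs_nonneg d
    linarith

theorem w_ (th : G_TH) (pos : G_POS) : G_W := by
  refine ⟨part1 th pos, ?_⟩
  set r : ℝ := Real.exp (-(Real.pi * (1 / 3))) with hr
  have hr1 : r < 1 := by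
    rw [hr, Real.exp_lt_one_iff]
    have := Real.pi_pos
    linarith
  have hr0 : 0 < r := Real.exp_pos _
  obtain ⟨C, hC, hexp⟩ := aS_expand hr1
  set C1 : ℝ := (2 * C + 6) / 6 with hC1
  set C2 : ℝ := (2 * C + 12) / 2 with hC2
  have hC1p : 0 < C1 := by positivity
  have hC2p : 0 < C2 := by positivity
  have hQr : ∀ y : ℝ, 1 / 3 ≤ y → |Qn y| ≤ r := by
    intro y hy
    rw [abs_Qn, hr, Real.exp_le_exp]
    have := Real.pi_pos
    nlinarith
  have hD : ∀ y : ℝ, 1 / 3 ≤ y → |DD (Qn y) - Qn y| ≤ C1 * Qn y ^ 2 ∧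
      |BB (Qn y) - 1| ≤ C2 * |Qn y| := by
    intro y hy
    have h1 := hQr y hy
    have h0 := abs_nonneg (Qn y)
    have h2 : |Qn y ^ 2| ≤ r := by
      rw [abs_pow]
      nlinarith
    have e1 := hexp _ h1
    have e2 := hexp _ h2
    have e3 : |Qn y| ^ 2 = Qn y ^ 2 := sq_abs _
    have h3 : (Qn y ^ 2) ^ 2 ≤ Qn y ^ 2 := by
      have : Qn y ^ 2 ≤ 1 := by rw [← e3]; nlinarith
      nlinarith [sq_nonneg (Qn y)]
    have h4 : Qn y ^ 2 ≤ |Qn y| := by
      rw [← e3]; nlinarith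
    have h5 : C * (Qn y ^ 2) ^ 2 ≤ C * Qn y ^ 2 := by gcongr
    have h6 : C * Qn y ^ 2 ≤ C * |Qn y| := by gcongr
    rw [abs_le] at e1 e2
    have h7 := neg_abs_le (Qn y)
    have h8 := le_abs_self (Qn y)
    constructor
    · rw [abs_le, DD, hC1]
      constructor <;> nlinarith [sq_nonneg (Qn y)]
    · rw [abs_le, BB, hC2]
      constructor <;> nlinarith [sq_nonneg (Qn y)]
  -- the function is continuous
  have hcont : ContinuousOn (fun y => |Real.log (ww y) - (Real.log 9 - Real.pi * y)|)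
      (Ici (1 / 3)) := by
    intro y hy
    have hy0 : 0 < y := lt_of_lt_of_le (by norm_num) (mem_Ici.mp hy)
    obtain ⟨h1, h2⟩ := part1 th pos y hy0
    have h3 : ContinuousAt (fun y => Real.log (ww y)) y := h2.continuousAt.log h1.ne'
    exact ((h3.sub (by fun_prop)).abs).continuousWithinAt
  set e0 : ℝ := min (1 / (2 * C1)) (1 / (2 * C2)) with he0
  have he0p : 0 < e0 := by positivity
  have hlim : Tendsto (fun y : ℝ => Real.exp (-(Real.pi * y))) atTop (𝓝 0) := by
    have h1 : Tendsto (fun y : ℝ => Real.pi * y) atTop atTop :=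
      tendsto_id.const_mul_atTop Real.pi_pos
    exact (Real.tendsto_exp_neg_atTop_nhds_zero).comp h1
  obtain ⟨Y, hY⟩ := (hlim.eventually (gt_mem_nhds he0p)).exists_forall_of_atTop
  obtain ⟨M, hM⟩ := (isCompact_Icc (a := (1 / 3 : ℝ)) (b := max Y (1 / 3))).bddAbove_image
    (hcont.mono fun y hy => hy.1)
  refine ⟨max (2 * C1 + 2 * C2) (|M| * Real.exp (Real.pi * max Y (1 / 3))), fun y hy => ?_⟩
  have hQp : 0 < Real.exp (-(Real.pi * y)) := Real.exp_pos _
  rcases le_total y (max Y (1 / 3)) with hyY | hyY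
  · have h1 : |Real.log (ww y) - (Real.log 9 - Real.pi * y)| ≤ M :=
      hM ⟨y, ⟨hy, hyY⟩, rfl⟩
    have h2 : (1:ℝ) ≤ Real.exp (Real.pi * max Y (1 / 3)) * Real.exp (-(Real.pi * y)) := by
      rw [← Real.exp_add]
      apply Real.one_le_exp
      have := Real.pi_pos
      nlinarith
    calc |Real.log (ww y) - (Real.log 9 - Real.pi * y)| ≤ |M| * 1 := by
          rw [mul_one]; exact h1.trans (le_abs_self M)
      _ ≤ |M| * (Real.exp (Real.pi * max Y (1 / 3)) * Real.exp (-(Real.pi * y))) := by gcongr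
      _ = |M| * Real.exp (Real.pi * max Y (1 / 3)) * Real.exp (-(Real.pi * y)) := by ring
      _ ≤ _ := by gcongr; exact le_max_right _ _
  · have hy0 : 0 < y := by linarith
    have hsmall := hY y ((le_max_left _ _).trans hyY)
    obtain ⟨hA, hB, hCC, hDD⟩ := pos y hy0
    obtain ⟨d1, d2⟩ := hD y hy
    set Q : ℝ := Real.exp (-(Real.pi * y)) with hQ
    have hqn : Qn y = -Q := rfl
    have hqa : |Qn y| = Q := abs_Qn y
    rw [hqa] at d2
    set u : ℝ := -DD (Qn y) / Q - 1 with hu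
    set v : ℝ := BB (Qn y) - 1 with hv
    have hQC1 : C1 * Q ≤ 1 / 2 := by
      have : Q ≤ 1 / (2 * C1) := hsmall.le.trans (min_le_left _ _)
      rw [le_div_iff₀ (by positivity)] at this
      linarith
    have hQC2 : C2 * Q ≤ 1 / 2 := by
      have : Q ≤ 1 / (2 * C2) := hsmall.le.trans (min_le_right _ _)
      rw [le_div_iff₀ (by positivity)] at this
      linarith
    have hu1 : |u| ≤ C1 * Q := by
      have h1 : u = -(DD (Qn y) - Qn y) / Q := by
        rw [hu, hqn]; field_simp; ring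
      rw [h1, abs_div, abs_neg, abs_of_pos hQp, div_le_iff₀ hQp]
      calc |DD (Qn y) - Qn y| ≤ C1 * Qn y ^ 2 := d1
        _ = C1 * Q * Q := by rw [hqn]; ring
    have hlog : Real.log (ww y) - (Real.log 9 - Real.pi * y) =
        Real.log (1 + u) - Real.log (1 + v) := by
      have h1 : ww y = 9 * (Q * ((1 + u) / (1 + v))) := by
        have e1 : 1 + u = -DD (Qn y) / Q := by rw [hu]; ring
        have e2 : 1 + v = BB (Qn y) := by rw [hv]; ring
        rw [e1, e2, ww]
        field_simp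
      have h2 : 0 < 1 + u := by
        have := (abs_le.mp (hu1.trans hQC1)).1
        linarith
      have h3 : 0 < 1 + v := by rw [hv]; linarith
      rw [h1, Real.log_mul (by norm_num) (by positivity), Real.log_mul hQp.ne' (by positivity),
        Real.log_div h2.ne' h3.ne', hQ, Real.log_exp]
      ring
    rw [hlog]
    have h1 := abs_log_le (hu1.trans hQC1)
    have h2 := abs_log_le (d2.trans hQC2)
    calc |Real.log (1 + u) - Real.log (1 + v)| ≤ |Real.log (1 + u)| + |Real.log (1 + v)| :=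
          abs_sub _ _
      _ ≤ 2 * (C1 * Q) + 2 * (C2 * Q) := by linarith
      _ = (2 * C1 + 2 * C2) * Q := by ring
      _ ≤ _ := by gcongr; exact le_max_left _ _

end ECC.PkW
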